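import Mathlib

set_option autoImplicit false

/-!
# MP_daffe5_an: the exposed-hull property and density of exposing functionals

A real Banach space has the exposed-hull property (every closed convex bounded set is the closed
convex hull of its exposed points) if and only if, for every closed convex bounded set `C`, every
continuous functional `f₀` can be approximated, uniformly on any prescribed weakly compact convex
set (that is, in the Mackey topology of the dual), by functionals exposing a point of `C` inside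
any prescribed nonempty open slice of `C` cut by `f₀`.
-/

open Set
open scoped Pointwise

universe u

namespace Pool.Agent.Results.MP_daffe5_an.ExposingDense

variable {X : Type u} [NormedAddCommGroup X] [NormedSpace ℝ X]

/-- The compact convex set of all `s • (κ - u)`, `0 ≤ s ≤ S`, `κ ∈ K₁`. -/
def cone (S : ℝ) (K₁ : Set X) (u : X) : Set X :=
  (fun p : ℝ × X => p.1 • (p.2 - u)) '' (Set.Icc (0 : ℝ) S ×ˢ K₁)

lemma weakCompact_cone {S : ℝ} {K₁ : Set X} (u : X) (hK : IsCompact (toWeakSpace ℝ X '' K₁)) :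
    IsCompact (toWeakSpace ℝ X '' cone S K₁ u) := by
  have h : toWeakSpace ℝ X '' cone S K₁ u
      = (fun p : ℝ × WeakSpace ℝ X => p.1 • (p.2 - toWeakSpace ℝ X u)) ''
        (Set.Icc (0 : ℝ) S ×ˢ (toWeakSpace ℝ X '' K₁)) := by
    ext w
    constructor
    · rintro ⟨_, ⟨⟨s, κ⟩, ⟨hs, hκ⟩, rfl⟩, rfl⟩
      exact ⟨(s, toWeakSpace ℝ X κ), ⟨hs, ⟨κ, hκ, rfl⟩⟩, by simp⟩
    · rintro ⟨⟨s, _⟩, ⟨hs, ⟨κ, hκ, rfl⟩⟩, rfl⟩
      exact ⟨s • (κ - u), ⟨(s, κ), ⟨hs, hκ⟩, rfl⟩, by simp⟩
  rw [h]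
  exact (isCompact_Icc.prod hK).image (by fun_prop)

lemma weakCompact_add {A B : Set X} (hA : IsCompact (toWeakSpace ℝ X '' A))
    (hB : IsCompact (toWeakSpace ℝ X '' B)) : IsCompact (toWeakSpace ℝ X '' (A + B)) := by
  rw [Set.image_add]
  exact hA.add hB

/-- A weakly compact set is bounded (Banach-Steinhaus). -/
lemma weakCompact_bounded {A : Set X} (hA : IsCompact (toWeakSpace ℝ X '' A)) :
    Bornology.IsBounded A := by
  have h : ∃ M, ∀ a : A, ‖NormedSpace.inclusionInDoubleDualLi (E := X) ℝ (a : X)‖ ≤ M := by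
    refine banach_steinhaus (g := fun a : A =>
      NormedSpace.inclusionInDoubleDualLi (E := X) ℝ (a : X)) (fun f => ?_)
    have hc : IsCompact (f '' A) := by
      have e : f '' A = (fun w : WeakSpace ℝ X => f ((toWeakSpace ℝ X).symm w)) ''
          (toWeakSpace ℝ X '' A) := by
        rw [Set.image_image]
        simp
      rw [e]
      exact hA.image (WeakBilin.eval_continuous (topDualPairing ℝ X).flip f)
    obtain ⟨M, hM⟩ := hc.isBounded.exists_norm_le
    exact ⟨M, fun a => hM _ ⟨a, a.2, rfl⟩⟩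
  obtain ⟨M, hM⟩ := h
  refine isBounded_iff_forall_norm_le.mpr ⟨M, fun a ha => ?_⟩
  have := hM ⟨a, ha⟩
  rwa [LinearIsometry.norm_map] at this

/-- Closed convex plus weakly compact convex is closed. -/
lemma closed_add_weakCompact {A B : Set X} (hA : IsClosed A) (hAx : Convex ℝ A)
    (hB : IsCompact (toWeakSpace ℝ X '' B)) : IsClosed (A + B) := by
  have hA' : IsClosed (toWeakSpace ℝ X '' A) := by
    have := hAx.toWeakSpace_closure ℝ
    rw [hA.closure_eq] at this
    rw [this]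
    exact isClosed_closure
  have h : IsClosed (toWeakSpace ℝ X '' (A + B)) := by
    rw [Set.image_add]
    exact hA'.add_right_of_isCompact hB
  have e : A + B = (toWeakSpaceCLM ℝ X) ⁻¹' (toWeakSpace ℝ X '' (A + B)) := by
    ext x
    simp [toWeakSpaceCLM_eq_toWeakSpace]
  rw [e]
  exact h.preimage (toWeakSpaceCLM ℝ X).continuous

lemma convex_cone {S : ℝ} {K₁ : Set X} (u : X) (hK : Convex ℝ K₁) :
    Convex ℝ (cone S K₁ u) := by
  rintro _ ⟨⟨s, κ⟩, ⟨hs, hκ⟩, rfl⟩ _ ⟨⟨s', κ'⟩, ⟨hs', hκ'⟩, rfl⟩ a b ha hb hab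
  simp only at hs hκ hs' hκ'
  have h1 : 0 ≤ a * s := mul_nonneg ha hs.1
  have h2 : 0 ≤ b * s' := mul_nonneg hb hs'.1
  have hS : a * s + b * s' ≤ S := by
    have e1 : a * s ≤ a * S := mul_le_mul_of_nonneg_left hs.2 ha
    have e2 : b * s' ≤ b * S := mul_le_mul_of_nonneg_left hs'.2 hb
    have e3 : a * S + b * S = S := by rw [← add_mul, hab, one_mul]
    linarith
  rcases (add_nonneg h1 h2).eq_or_lt with h0 | h0
  · have h1' : a * s = 0 := by linarith
    have h2' : b * s' = 0 := by linarith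
    refine ⟨(0, κ), ⟨⟨le_rfl, ?_⟩, hκ⟩, ?_⟩
    · linarith
    · simp only [zero_smul, smul_smul, h1', h2', add_zero]
  · refine ⟨(a * s + b * s', (a * s / (a * s + b * s')) • κ + (b * s' / (a * s + b * s')) • κ'),
      ⟨⟨h0.le, hS⟩, ?_⟩, ?_⟩
    · refine hK hκ hκ' (div_nonneg h1 h0.le) (div_nonneg h2 h0.le) ?_
      rw [← add_div, div_self h0.ne']
    · simp only [smul_sub, smul_add, smul_smul]
      rw [mul_div_cancel₀ _ h0.ne', mul_div_cancel₀ _ h0.ne', add_smul]
      abel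

lemma forward_core [CompleteSpace X]
    (H : ∀ C : Set X, IsClosed C → Convex ℝ C → Bornology.IsBounded C →
      C = closure (convexHull ℝ (Set.exposedPoints ℝ C)))
    (C : Set X) (hCc : IsClosed C) (hCx : Convex ℝ C) (hCb : Bornology.IsBounded C)
    (f₀ : X →L[ℝ] ℝ) (K : Set X) (hKne : K.Nonempty) (hKx : Convex ℝ K)
    (hK : IsCompact (toWeakSpace ℝ X '' K)) (ε : ℝ) (hε : 0 < ε) (t : ℝ)
    (hx : ∃ x ∈ C, t < f₀ x) :
    ∃ e ∈ C, ∃ f : X →L[ℝ] ℝ, (∀ y ∈ C, y ≠ e → f y < f e) ∧ t < f₀ e ∧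
      ∀ k ∈ K, |f k - f₀ k| < ε := by
  obtain ⟨x, hxC, hxt⟩ := hx
  by_cases hf : f₀ = 0
  · -- any exposed point and a small multiple of its functional
    subst hf
    have hne : (Set.exposedPoints ℝ C).Nonempty := by
      by_contra hcon
      rw [Set.not_nonempty_iff_eq_empty] at hcon
      have := H C hCc hCx hCb
      rw [hcon, convexHull_empty, closure_empty] at this
      rw [this] at hxC
      exact hxC
    obtain ⟨e, heC, l, hl⟩ := hne
    obtain ⟨M, hM⟩ := (weakCompact_bounded hK).exists_norm_le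
    have hden : 0 < ‖l‖ * |M| + 1 := by positivity
    refine ⟨e, heC, (ε / (‖l‖ * |M| + 1)) • l, ?_, by simpa using hxt, ?_⟩
    · intro y hy hye
      have h1 := hl y hy
      have h2 : l y < l e := lt_of_le_of_ne h1.1 (fun h => hye (h1.2 h.ge))
      have h3 : 0 < ε / (‖l‖ * |M| + 1) := div_pos hε hden
      simpa using mul_lt_mul_of_pos_left h2 h3
    · intro k hk
      have h1 : |l k| ≤ ‖l‖ * |M| := by
        have := l.le_opNorm k
        rw [Real.norm_eq_abs] at this
        exact this.trans (mul_le_mul_of_nonneg_left ((hM k hk).trans (le_abs_self M))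
          (norm_nonneg l))
      have h3 : 0 < ε / (‖l‖ * |M| + 1) := div_pos hε hden
      have h4 : |((ε / (‖l‖ * |M| + 1)) • l) k - (0 : X →L[ℝ] ℝ) k|
          = ε / (‖l‖ * |M| + 1) * |l k| := by
        simp [abs_mul, abs_of_pos h3]
      rw [h4]
      calc ε / (‖l‖ * |M| + 1) * |l k| ≤ ε / (‖l‖ * |M| + 1) * (‖l‖ * |M|) :=
            mul_le_mul_of_nonneg_left h1 h3.le
        _ < ε / (‖l‖ * |M| + 1) * (‖l‖ * |M| + 1) :=
            mul_lt_mul_of_pos_left (by linarith) h3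
        _ = ε := by field_simp
  -- the main case
  obtain ⟨u, hu⟩ : ∃ u : X, f₀ u = 1 := by
    obtain ⟨v, hv⟩ : ∃ v, f₀ v ≠ 0 := by
      by_contra hcon
      push Not at hcon
      exact hf (ContinuousLinearMap.ext hcon)
    exact ⟨(f₀ v)⁻¹ • v, by simp [hv]⟩
  set φ : X →L[ℝ] X := ε⁻¹ • (ContinuousLinearMap.id ℝ X - f₀.smulRight u) with hφ
  have hφa : ∀ k, φ k = ε⁻¹ • (k - f₀ k • u) := fun k => by simp [hφ]
  have hφ0 : ∀ k, f₀ (φ k) = 0 := by
    intro k
    simp [hφa, hu]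
  set K₀ : Set X := cone 1 K 0 + cone 1 (-K) 0 with hK₀
  have hneg : IsCompact (toWeakSpace ℝ X '' (-K)) := by
    have e : toWeakSpace ℝ X '' (-K) = -(toWeakSpace ℝ X '' K) := by
      ext w
      constructor
      · rintro ⟨k, hk, rfl⟩
        exact ⟨-k, hk, by simp⟩
      · rintro ⟨k, hk, hkw⟩
        refine ⟨-k, by simpa using hk, ?_⟩
        rw [map_neg, hkw, neg_neg]
    rw [e]
    exact hK.neg
  have hK₀c : IsCompact (toWeakSpace ℝ X '' K₀) :=
    weakCompact_add (weakCompact_cone 0 hK) (weakCompact_cone 0 hneg)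
  have hK₀x : Convex ℝ K₀ := (convex_cone 0 hKx).add (convex_cone 0 hKx.neg)
  obtain ⟨k₀, hk₀⟩ := hKne
  have hz1 : (0 : X) ∈ cone 1 K 0 := ⟨(0, k₀), ⟨⟨le_rfl, zero_le_one⟩, hk₀⟩, by simp⟩
  have hz2 : (0 : X) ∈ cone 1 (-K) 0 :=
    ⟨(0, -k₀), ⟨⟨le_rfl, zero_le_one⟩, by simpa using hk₀⟩, by simp⟩
  have hz : (0 : X) ∈ K₀ := ⟨0, hz1, 0, hz2, by simp⟩
  have hpos : ∀ k ∈ K, k ∈ K₀ := fun k hk =>
    ⟨k, ⟨(1, k), ⟨⟨zero_le_one, le_rfl⟩, hk⟩, by simp⟩, 0, hz2, by simp⟩
  have hnegm : ∀ k ∈ K, -k ∈ K₀ := fun k hk =>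
    ⟨0, hz1, -k, ⟨(1, -k), ⟨⟨zero_le_one, le_rfl⟩, by simpa using hk⟩, by simp⟩, by simp⟩
  set K₁ : Set X := φ '' K₀ with hK₁
  have hK₁c : IsCompact (toWeakSpace ℝ X '' K₁) := by
    have e : toWeakSpace ℝ X '' K₁ = (WeakSpace.map φ) '' (toWeakSpace ℝ X '' K₀) := by
      rw [hK₁, Set.image_image, Set.image_image]
      rfl
    rw [e]
    exact hK₀c.image (WeakSpace.map φ).continuous
  have hK₁x : Convex ℝ K₁ := hK₀x.linear_image φ.toLinearMap
  have hK₁0 : ∀ κ ∈ K₁, f₀ κ = 0 := by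
    rintro _ ⟨k, _, rfl⟩
    exact hφ0 k
  have h0K : (0 : X) ∈ K₁ := ⟨0, hz, map_zero φ⟩
  -- bound of `f₀` on `C`
  obtain ⟨S, hS⟩ : ∃ S : ℝ, ∀ c ∈ C, f₀ c - t ≤ S := by
    obtain ⟨M, hM⟩ := hCb.exists_norm_le
    refine ⟨‖f₀‖ * M - t, fun c hc => ?_⟩
    have h1 := f₀.le_opNorm c
    rw [Real.norm_eq_abs] at h1
    have h2 : ‖f₀‖ * ‖c‖ ≤ ‖f₀‖ * M := mul_le_mul_of_nonneg_left (hM c hc) (norm_nonneg _)
    linarith [le_abs_self (f₀ c)]
  have hS0 : 0 < S := by linarith [hS x hxC]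
  set T : Set X := cone S K₁ u with hT
  have hTc : IsCompact (toWeakSpace ℝ X '' T) := weakCompact_cone u hK₁c
  have hTx : Convex ℝ T := convex_cone u hK₁x
  have h0T : (0 : X) ∈ T := ⟨(0, 0), ⟨⟨le_rfl, hS0.le⟩, h0K⟩, by simp⟩
  set D : Set X := (C + T) ∩ {y : X | t ≤ f₀ y} with hD
  have hDc : IsClosed D := by
    refine IsClosed.inter (closed_add_weakCompact hCc hCx hTc) ?_
    exact isClosed_le continuous_const f₀.continuous
  have hDx : Convex ℝ D := by
    refine (hCx.add hTx).inter ?_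
    intro a ha b hb p q hp hq hpq
    simp only [Set.mem_ofPred_eq] at ha hb ⊢
    simp only [map_add, map_smul, smul_eq_mul]
    have e1 : p * t ≤ p * f₀ a := mul_le_mul_of_nonneg_left ha hp
    have e2 : q * t ≤ q * f₀ b := mul_le_mul_of_nonneg_left hb hq
    have e3 : p * t + q * t = t := by rw [← add_mul, hpq, one_mul]
    linarith
  have hDb : Bornology.IsBounded D := (hCb.add (weakCompact_bounded hTc)).subset Set.inter_subset_left
  have hCD : ∀ y ∈ C, t ≤ f₀ y → y ∈ D := fun y hy hyt =>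
    ⟨⟨y, hy, 0, h0T, by simp⟩, hyt⟩
  -- an exposed point of `D` strictly above level `t`
  obtain ⟨e, ⟨heD, l, hl⟩, het⟩ : ∃ e ∈ Set.exposedPoints ℝ D, t < f₀ e := by
    by_contra hcon
    push Not at hcon
    have hxD : x ∈ D := hCD x hxC hxt.le
    rw [H D hDc hDx hDb] at hxD
    have hle : closure (convexHull ℝ (Set.exposedPoints ℝ D)) ⊆ {y : X | f₀ y ≤ t} := by
      refine closure_minimal (convexHull_min (fun y hy => hcon y hy) ?_) ?_
      · intro a ha b hb p q hp hq hpq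
        simp only [Set.mem_ofPred_eq] at ha hb ⊢
        simp only [map_add, map_smul, smul_eq_mul]
        have e1 : p * f₀ a ≤ p * t := mul_le_mul_of_nonneg_left ha hp
        have e2 : q * f₀ b ≤ q * t := mul_le_mul_of_nonneg_left hb hq
        have e3 : p * t + q * t = t := by rw [← add_mul, hpq, one_mul]
        linarith
      · exact isClosed_le f₀.continuous continuous_const
    exact absurd (hle hxD) (not_le.mpr hxt)
  obtain ⟨⟨c, hcC, _, ⟨⟨s, κ⟩, ⟨⟨hs0, hsS⟩, hκ⟩, rfl⟩, hce⟩, het'⟩ := heD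
  simp only at hs0 hsS hκ hce
  have hfv : ∀ κ ∈ K₁, f₀ (κ - u) = -1 := by
    intro κ hκ
    simp [hK₁0 κ hκ, hu]
  -- the cone part of `e` vanishes
  have hs : s = 0 := by
    by_contra hne
    have hspos : 0 < s := lt_of_le_of_ne hs0 (Ne.symm hne)
    have hfe : f₀ e = f₀ c - s := by
      rw [← hce]
      simp only [map_add, map_smul, smul_eq_mul, hfv κ hκ]
      ring
    obtain ⟨η, hη0, hηs, hηt⟩ : ∃ η : ℝ, 0 < η ∧ η ≤ s ∧ η ≤ f₀ e - t :=
      ⟨min s (f₀ e - t), lt_min hspos (by linarith), min_le_left _ _, min_le_right _ _⟩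
    have hp : e + η • (κ - u) ∈ D := by
      refine ⟨⟨c, hcC, (s + η) • (κ - u), ⟨(s + η, κ), ⟨⟨by linarith, ?_⟩, hκ⟩, rfl⟩, ?_⟩, ?_⟩
      · have := hS c hcC
        linarith
      · change c + (s + η) • (κ - u) = e + η • (κ - u)
        rw [← hce, add_smul, add_assoc]
      · simp only [Set.mem_ofPred_eq, map_add, map_smul, smul_eq_mul, hfv κ hκ]
        linarith
    have hm : e - η • (κ - u) ∈ D := by
      refine ⟨⟨c, hcC, (s - η) • (κ - u), ⟨(s - η, κ), ⟨⟨by linarith, by linarith⟩, hκ⟩, rfl⟩,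
        ?_⟩, ?_⟩
      · change c + (s - η) • (κ - u) = e - η • (κ - u)
        rw [← hce, sub_smul, add_sub_assoc]
      · simp only [Set.mem_ofPred_eq, map_sub, map_smul, smul_eq_mul]
        have := hfv κ hκ
        rw [map_sub] at this
        rw [this]
        linarith
    have hp1 := (hl _ hp).1
    have hm1 := (hl _ hm).1
    have hp2 : l e ≤ l (e + η • (κ - u)) := by
      rw [map_add]
      rw [map_sub] at hm1
      linarith
    have heq := (hl _ hp).2 hp2
    have h0 : f₀ (e + η • (κ - u)) = f₀ e := by rw [heq]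
    rw [map_add, map_smul, hfv κ hκ, smul_eq_mul] at h0
    linarith
  have heC : e ∈ C := by
    rw [hs, zero_smul, add_zero] at hce
    exact hce ▸ hcC
  -- `l` is small on `K₁`
  have hlu : ∀ κ ∈ K₁, l κ < l u := by
    intro κ hκ
    have hη0 : 0 < f₀ e - t := by linarith
    have hp : e + (f₀ e - t) • (κ - u) ∈ D := by
      refine ⟨⟨e, heC, (f₀ e - t) • (κ - u), ⟨(f₀ e - t, κ), ⟨⟨hη0.le, hS e heC⟩, hκ⟩, rfl⟩,
        rfl⟩, ?_⟩
      simp only [Set.mem_ofPred_eq, map_add, map_smul, smul_eq_mul, hfv κ hκ]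
      linarith
    by_contra hcon
    push Not at hcon
    have hp2 : l e ≤ l (e + (f₀ e - t) • (κ - u)) := by
      rw [map_add, map_smul, map_sub, smul_eq_mul]
      have := mul_nonneg hη0.le (sub_nonneg.mpr hcon)
      linarith
    have heq := (hl _ hp).2 hp2
    have h0 : f₀ (e + (f₀ e - t) • (κ - u)) = f₀ e := by rw [heq]
    rw [map_add, map_smul, hfv κ hκ, smul_eq_mul] at h0
    linarith
  have hlu0 : 0 < l u := by
    have := hlu 0 h0K
    rwa [map_zero] at this
  -- `l` exposes `C` at `e`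
  have hexp : ∀ y ∈ C, y ≠ e → l y < l e := by
    intro y hy hye
    have ha : 0 < f₀ e - t := by linarith
    obtain ⟨lam, hlam0, hlam1, hlamt⟩ :
        ∃ lam : ℝ, 0 < lam ∧ lam ≤ 1 ∧ lam * (f₀ e - f₀ y) ≤ f₀ e - t := by
      have hden : 0 < (f₀ e - t) + |f₀ e - f₀ y| := by positivity
      refine ⟨(f₀ e - t) / ((f₀ e - t) + |f₀ e - f₀ y|), div_pos ha hden, ?_, ?_⟩
      · rw [div_le_one hden]
        linarith [abs_nonneg (f₀ e - f₀ y)]
      · rw [div_mul_eq_mul_div, div_le_iff₀ hden]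
        have := le_abs_self (f₀ e - f₀ y)
        exact mul_le_mul_of_nonneg_left (by linarith) ha.le
    have hz : e + lam • (y - e) ∈ C := by
      have := hCx heC hy (sub_nonneg.mpr hlam1) hlam0.le (by ring)
      convert this using 1
      rw [smul_sub, sub_smul, one_smul]
      abel
    have hzD : e + lam • (y - e) ∈ D := by
      refine hCD _ hz ?_
      rw [map_add, map_smul, map_sub, smul_eq_mul]
      linarith
    have hne : e + lam • (y - e) ≠ e := by
      intro h
      have h' : lam • (y - e) = 0 := by simpa using h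
      rcases smul_eq_zero.mp h' with h1 | h1
      · exact hlam0.ne' h1
      · exact hye (sub_eq_zero.mp h1)
    have h1 := hl _ hzD
    have h2 : l (e + lam • (y - e)) < l e := lt_of_le_of_ne h1.1 (fun h => hne (h1.2 h.ge))
    rw [map_add, map_smul, map_sub, smul_eq_mul] at h2
    have h3 : lam * (l y - l e) < 0 := by linarith
    have h4 : l y - l e < 0 := by
      by_contra hcon
      push Not at hcon
      have := mul_nonneg hlam0.le hcon
      linarith
    linarith
  refine ⟨e, heC, (l u)⁻¹ • l, ?_, het, ?_⟩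
  · intro y hy hye
    simpa using mul_lt_mul_of_pos_left (hexp y hy hye) (inv_pos.mpr hlu0)
  · intro k hk
    have h1 : l (φ k) < l u := hlu _ ⟨k, hpos k hk, rfl⟩
    have h2 : l (φ (-k)) < l u := hlu _ ⟨-k, hnegm k hk, rfl⟩
    rw [map_neg, map_neg] at h2
    have h3 : l (φ k) = ε⁻¹ * (l k - f₀ k * l u) := by
      rw [hφa]
      simp
    rw [h3] at h1 h2
    have h4 : |l k - f₀ k * l u| < ε * l u := by
      rw [abs_lt]
      constructor
      · have := mul_lt_mul_of_pos_left h2 hε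
        have e1 : ε * -(ε⁻¹ * (l k - f₀ k * l u)) = -(l k - f₀ k * l u) := by
          field_simp
        rw [e1] at this
        linarith
      · have := mul_lt_mul_of_pos_left h1 hε
        have e1 : ε * (ε⁻¹ * (l k - f₀ k * l u)) = (l k - f₀ k * l u) := by
          field_simp
        rw [e1] at this
        exact this
    have h5 : ((l u)⁻¹ • l) k - f₀ k = (l u)⁻¹ * (l k - f₀ k * l u) := by
      simp only [_root_.smul_apply, smul_eq_mul]
      field_simp
    rw [h5, abs_mul, abs_of_pos (inv_pos.mpr hlu0)]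
    calc (l u)⁻¹ * |l k - f₀ k * l u| < (l u)⁻¹ * (ε * l u) :=
          mul_lt_mul_of_pos_left h4 (inv_pos.mpr hlu0)
      _ = ε := by field_simp

lemma forward [CompleteSpace X]
    (H : ∀ C : Set X, IsClosed C → Convex ℝ C → Bornology.IsBounded C →
      C = closure (convexHull ℝ (Set.exposedPoints ℝ C)))
    (C : Set X) (hCc : IsClosed C) (hCx : Convex ℝ C) (hCb : Bornology.IsBounded C)
    (f₀ : X →L[ℝ] ℝ) (K : Set X) (hKx : Convex ℝ K)
    (hK : IsCompact (toWeakSpace ℝ X '' K)) (ε : ℝ) (hε : 0 < ε) (t : ℝ)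
    (hx : ∃ x ∈ C, t < f₀ x) :
    ∃ e ∈ C, ∃ f : X →L[ℝ] ℝ, (∀ y ∈ C, y ≠ e → f y < f e) ∧ t < f₀ e ∧
      ∀ k ∈ K, |f k - f₀ k| < ε := by
  rcases K.eq_empty_or_nonempty with rfl | hKne
  · obtain ⟨e, he, f, hf, ht, -⟩ := forward_core H C hCc hCx hCb f₀ {0}
      (Set.singleton_nonempty 0) (convex_singleton 0) (by simp) ε hε t hx
    exact ⟨e, he, f, hf, ht, fun k hk => absurd hk (Set.notMem_empty k)⟩
  · exact forward_core H C hCc hCx hCb f₀ K hKne hKx hK ε hε t hx

lemma backward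
    (H : ∀ C : Set X, IsClosed C → Convex ℝ C → Bornology.IsBounded C →
      ∀ (f₀ : X →L[ℝ] ℝ) (K : Set X), Convex ℝ K → IsCompact (toWeakSpace ℝ X '' K) →
        ∀ ε : ℝ, 0 < ε → ∀ t : ℝ,
        (∃ x ∈ C, t < f₀ x) →
        ∃ e ∈ C, ∃ f : X →L[ℝ] ℝ, (∀ y ∈ C, y ≠ e → f y < f e) ∧ t < f₀ e ∧
          ∀ k ∈ K, |f k - f₀ k| < ε)
    (C : Set X) (hCc : IsClosed C) (hCx : Convex ℝ C) (hCb : Bornology.IsBounded C) :
    C = closure (convexHull ℝ (Set.exposedPoints ℝ C)) := by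
  refine Set.Subset.antisymm ?_ ?_
  · intro x hx
    by_contra hcon
    obtain ⟨f₀, t, hft, htx⟩ := geometric_hahn_banach_closed_point
      (convex_convexHull ℝ (Set.exposedPoints ℝ C)).closure isClosed_closure hcon
    obtain ⟨e, heC, f, hf, het, -⟩ :=
      H C hCc hCx hCb f₀ ∅ convex_empty (by simp) 1 one_pos t ⟨x, hx, htx⟩
    have hexp : e ∈ Set.exposedPoints ℝ C := by
      refine ⟨heC, f, fun y hy => ?_⟩
      by_cases hye : y = e
      · subst hye
        exact ⟨le_rfl, fun _ => rfl⟩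
      · have := hf y hy hye
        exact ⟨this.le, fun h => absurd this (not_lt.mpr h)⟩
    have := hft e (subset_closure (subset_convexHull ℝ _ hexp))
    linarith
  · refine closure_minimal (convexHull_min exposedPoints_subset hCx) hCc

/-- The exposed-hull property is equivalent to the following density property of exposing
functionals: for every closed convex bounded `C`, every functional `f₀`, every weakly compact
convex `K`, every `ε > 0` and every level `t` exceeded by `f₀` somewhere on `C`, there are a point `e` of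
`C` above the level `t` and a functional `f`, `ε`-close to `f₀` on `K`, whose maximum over `C` is
attained exactly at `e`. -/
theorem result (X : Type u) [NormedAddCommGroup X] [NormedSpace ℝ X] [CompleteSpace X] :
    (∀ C : Set X, IsClosed C → Convex ℝ C → Bornology.IsBounded C →
      C = closure (convexHull ℝ (Set.exposedPoints ℝ C))) ↔
    (∀ C : Set X, IsClosed C → Convex ℝ C → Bornology.IsBounded C →
      ∀ (f₀ : X →L[ℝ] ℝ) (K : Set X), Convex ℝ K → IsCompact (toWeakSpace ℝ X '' K) →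
        ∀ ε : ℝ, 0 < ε → ∀ t : ℝ,
        (∃ x ∈ C, t < f₀ x) →
        ∃ e ∈ C, ∃ f : X →L[ℝ] ℝ, (∀ y ∈ C, y ≠ e → f y < f e) ∧ t < f₀ e ∧
          ∀ k ∈ K, |f k - f₀ k| < ε) :=
  ⟨fun H C hCc hCx hCb f₀ K hKx hK ε hε t hx =>
    forward H C hCc hCx hCb f₀ K hKx hK ε hε t hx,
    fun H C hCc hCx hCb => backward H C hCc hCx hCb⟩

end Pool.Agent.Results.MP_daffe5_an.ExposingDense
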