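import Mathlib

set_option autoImplicit false

/-!
# MP_daffe5_an: the exposed-hull property and a linear variational principle

For a real Banach space `X` the product `X × ℝ` has the exposed-hull property if and only if
every lower semicontinuous convex function, bounded below on a closed convex bounded subset `B`
of `X`, attains a strict minimum on `B` after adding a linear functional which is as small as we
please on a given weakly compact convex set (and the minimum point can be taken in any nonempty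
sublevel set of the function).
-/

open Set
open scoped Pointwise

universe u

namespace Pool.Agent.Results.MP_daffe5_an.LinearPrinciple

variable {X : Type u} [NormedAddCommGroup X] [NormedSpace ℝ X]

/-- The compact convex set of all `s • (κ - u)`, `0 ≤ s ≤ S`, `κ ∈ K₁`. -/
def cone (S : ℝ) (K₁ : Set X) (u : X) : Set X :=
  (fun p : ℝ × X => p.1 • (p.2 - u)) '' (Set.Icc (0 : ℝ) S ×ˢ K₁)

lemma weakCompact_cone {S : ℝ} {K₁ : Set X} (u : X) (hK : IsCompact (toWeakSpace ℝ X '' K₁)) :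
    IsCompact (toWeakSpace ℝ X '' cone S K₁ u) := by
  have h : toWeakSpace ℝ X '' cone S K₁ u
      = (fun p : ℝ × WeakSpace ℝ X => p.1 • (p.2 - toWeakSpace ℝ X u)) ''
        (Set.Icc (0 : ℝ) S ×ˢ (toWeakSpace ℝ X '' K₁)) := by
    ext w
    constructor
    · rintro ⟨_, ⟨⟨s, κ⟩, ⟨hs, hκ⟩, rfl⟩, rfl⟩
      exact ⟨(s, toWeakSpace ℝ X κ), ⟨hs, ⟨κ, hκ, rfl⟩⟩, by simp⟩
    · rintro ⟨⟨s, _⟩, ⟨hs, ⟨κ, hκ, rfl⟩⟩, rfl⟩
      exact ⟨s • (κ - u), ⟨(s, κ), ⟨hs, hκ⟩, rfl⟩, by simp⟩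
  rw [h]
  exact (isCompact_Icc.prod hK).image (by fun_prop)

lemma weakCompact_add {A B : Set X} (hA : IsCompact (toWeakSpace ℝ X '' A))
    (hB : IsCompact (toWeakSpace ℝ X '' B)) : IsCompact (toWeakSpace ℝ X '' (A + B)) := by
  rw [Set.image_add]
  exact hA.add hB

/-- A weakly compact set is bounded (Banach-Steinhaus). -/
lemma weakCompact_bounded {A : Set X} (hA : IsCompact (toWeakSpace ℝ X '' A)) :
    Bornology.IsBounded A := by
  have h : ∃ M, ∀ a : A, ‖NormedSpace.inclusionInDoubleDualLi (E := X) ℝ (a : X)‖ ≤ M := by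
    refine banach_steinhaus (g := fun a : A =>
      NormedSpace.inclusionInDoubleDualLi (E := X) ℝ (a : X)) (fun f => ?_)
    have hc : IsCompact (f '' A) := by
      have e : f '' A = (fun w : WeakSpace ℝ X => f ((toWeakSpace ℝ X).symm w)) ''
          (toWeakSpace ℝ X '' A) := by
        rw [Set.image_image]
        simp
      rw [e]
      exact hA.image (WeakBilin.eval_continuous (topDualPairing ℝ X).flip f)
    obtain ⟨M, hM⟩ := hc.isBounded.exists_norm_le
    exact ⟨M, fun a => hM _ ⟨a, a.2, rfl⟩⟩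
  obtain ⟨M, hM⟩ := h
  refine isBounded_iff_forall_norm_le.mpr ⟨M, fun a ha => ?_⟩
  have := hM ⟨a, ha⟩
  rwa [LinearIsometry.norm_map] at this

/-- Closed convex plus weakly compact convex is closed. -/
lemma closed_add_weakCompact {A B : Set X} (hA : IsClosed A) (hAx : Convex ℝ A)
    (hB : IsCompact (toWeakSpace ℝ X '' B)) : IsClosed (A + B) := by
  have hA' : IsClosed (toWeakSpace ℝ X '' A) := by
    have := hAx.toWeakSpace_closure ℝ
    rw [hA.closure_eq] at this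
    rw [this]
    exact isClosed_closure
  have h : IsClosed (toWeakSpace ℝ X '' (A + B)) := by
    rw [Set.image_add]
    exact hA'.add_right_of_isCompact hB
  have e : A + B = (toWeakSpaceCLM ℝ X) ⁻¹' (toWeakSpace ℝ X '' (A + B)) := by
    ext x
    simp [toWeakSpaceCLM_eq_toWeakSpace]
  rw [e]
  exact h.preimage (toWeakSpaceCLM ℝ X).continuous

lemma convex_cone {S : ℝ} {K₁ : Set X} (u : X) (hK : Convex ℝ K₁) :
    Convex ℝ (cone S K₁ u) := by
  rintro _ ⟨⟨s, κ⟩, ⟨hs, hκ⟩, rfl⟩ _ ⟨⟨s', κ'⟩, ⟨hs', hκ'⟩, rfl⟩ a b ha hb hab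
  simp only at hs hκ hs' hκ'
  have h1 : 0 ≤ a * s := mul_nonneg ha hs.1
  have h2 : 0 ≤ b * s' := mul_nonneg hb hs'.1
  have hS : a * s + b * s' ≤ S := by
    have e1 : a * s ≤ a * S := mul_le_mul_of_nonneg_left hs.2 ha
    have e2 : b * s' ≤ b * S := mul_le_mul_of_nonneg_left hs'.2 hb
    have e3 : a * S + b * S = S := by rw [← add_mul, hab, one_mul]
    linarith
  rcases (add_nonneg h1 h2).eq_or_lt with h0 | h0
  · have h1' : a * s = 0 := by linarith
    have h2' : b * s' = 0 := by linarith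
    refine ⟨(0, κ), ⟨⟨le_rfl, ?_⟩, hκ⟩, ?_⟩
    · linarith
    · simp only [zero_smul, smul_smul, h1', h2', add_zero]
  · refine ⟨(a * s + b * s', (a * s / (a * s + b * s')) • κ + (b * s' / (a * s + b * s')) • κ'),
      ⟨⟨h0.le, hS⟩, ?_⟩, ?_⟩
    · refine hK hκ hκ' (div_nonneg h1 h0.le) (div_nonneg h2 h0.le) ?_
      rw [← add_div, div_self h0.ne']
    · simp only [smul_sub, smul_add, smul_smul]
      rw [mul_div_cancel₀ _ h0.ne', mul_div_cancel₀ _ h0.ne', add_smul]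
      abel

lemma forward_core [CompleteSpace X]
    (H : ∀ C : Set X, IsClosed C → Convex ℝ C → Bornology.IsBounded C →
      C = closure (convexHull ℝ (Set.exposedPoints ℝ C)))
    (C : Set X) (hCc : IsClosed C) (hCx : Convex ℝ C) (hCb : Bornology.IsBounded C)
    (f₀ : X →L[ℝ] ℝ) (K : Set X) (hKne : K.Nonempty) (hKx : Convex ℝ K)
    (hK : IsCompact (toWeakSpace ℝ X '' K)) (ε : ℝ) (hε : 0 < ε) (t : ℝ)
    (hx : ∃ x ∈ C, t < f₀ x) :
    ∃ e ∈ C, ∃ f : X →L[ℝ] ℝ, (∀ y ∈ C, y ≠ e → f y < f e) ∧ t < f₀ e ∧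
      ∀ k ∈ K, |f k - f₀ k| < ε := by
  obtain ⟨x, hxC, hxt⟩ := hx
  by_cases hf : f₀ = 0
  · -- any exposed point and a small multiple of its functional
    subst hf
    have hne : (Set.exposedPoints ℝ C).Nonempty := by
      by_contra hcon
      rw [Set.not_nonempty_iff_eq_empty] at hcon
      have := H C hCc hCx hCb
      rw [hcon, convexHull_empty, closure_empty] at this
      rw [this] at hxC
      exact hxC
    obtain ⟨e, heC, l, hl⟩ := hne
    obtain ⟨M, hM⟩ := (weakCompact_bounded hK).exists_norm_le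
    have hden : 0 < ‖l‖ * |M| + 1 := by positivity
    refine ⟨e, heC, (ε / (‖l‖ * |M| + 1)) • l, ?_, by simpa using hxt, ?_⟩
    · intro y hy hye
      have h1 := hl y hy
      have h2 : l y < l e := lt_of_le_of_ne h1.1 (fun h => hye (h1.2 h.ge))
      have h3 : 0 < ε / (‖l‖ * |M| + 1) := div_pos hε hden
      simpa using mul_lt_mul_of_pos_left h2 h3
    · intro k hk
      have h1 : |l k| ≤ ‖l‖ * |M| := by
        have := l.le_opNorm k
        rw [Real.norm_eq_abs] at this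
        exact this.trans (mul_le_mul_of_nonneg_left ((hM k hk).trans (le_abs_self M))
          (norm_nonneg l))
      have h3 : 0 < ε / (‖l‖ * |M| + 1) := div_pos hε hden
      have h4 : |((ε / (‖l‖ * |M| + 1)) • l) k - (0 : X →L[ℝ] ℝ) k|
          = ε / (‖l‖ * |M| + 1) * |l k| := by
        simp [abs_mul, abs_of_pos h3]
      rw [h4]
      calc ε / (‖l‖ * |M| + 1) * |l k| ≤ ε / (‖l‖ * |M| + 1) * (‖l‖ * |M|) :=
            mul_le_mul_of_nonneg_left h1 h3.le
        _ < ε / (‖l‖ * |M| + 1) * (‖l‖ * |M| + 1) :=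
            mul_lt_mul_of_pos_left (by linarith) h3
        _ = ε := by field_simp
  -- the main case
  obtain ⟨u, hu⟩ : ∃ u : X, f₀ u = 1 := by
    obtain ⟨v, hv⟩ : ∃ v, f₀ v ≠ 0 := by
      by_contra hcon
      push Not at hcon
      exact hf (ContinuousLinearMap.ext hcon)
    exact ⟨(f₀ v)⁻¹ • v, by simp [hv]⟩
  set φ : X →L[ℝ] X := ε⁻¹ • (ContinuousLinearMap.id ℝ X - f₀.smulRight u) with hφ
  have hφa : ∀ k, φ k = ε⁻¹ • (k - f₀ k • u) := fun k => by simp [hφ]
  have hφ0 : ∀ k, f₀ (φ k) = 0 := by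
    intro k
    simp [hφa, hu]
  set K₀ : Set X := cone 1 K 0 + cone 1 (-K) 0 with hK₀
  have hneg : IsCompact (toWeakSpace ℝ X '' (-K)) := by
    have e : toWeakSpace ℝ X '' (-K) = -(toWeakSpace ℝ X '' K) := by
      ext w
      constructor
      · rintro ⟨k, hk, rfl⟩
        exact ⟨-k, hk, by simp⟩
      · rintro ⟨k, hk, hkw⟩
        refine ⟨-k, by simpa using hk, ?_⟩
        rw [map_neg, hkw, neg_neg]
    rw [e]
    exact hK.neg
  have hK₀c : IsCompact (toWeakSpace ℝ X '' K₀) :=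
    weakCompact_add (weakCompact_cone 0 hK) (weakCompact_cone 0 hneg)
  have hK₀x : Convex ℝ K₀ := (convex_cone 0 hKx).add (convex_cone 0 hKx.neg)
  obtain ⟨k₀, hk₀⟩ := hKne
  have hz1 : (0 : X) ∈ cone 1 K 0 := ⟨(0, k₀), ⟨⟨le_rfl, zero_le_one⟩, hk₀⟩, by simp⟩
  have hz2 : (0 : X) ∈ cone 1 (-K) 0 :=
    ⟨(0, -k₀), ⟨⟨le_rfl, zero_le_one⟩, by simpa using hk₀⟩, by simp⟩
  have hz : (0 : X) ∈ K₀ := ⟨0, hz1, 0, hz2, by simp⟩
  have hpos : ∀ k ∈ K, k ∈ K₀ := fun k hk =>
    ⟨k, ⟨(1, k), ⟨⟨zero_le_one, le_rfl⟩, hk⟩, by simp⟩, 0, hz2, by simp⟩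
  have hnegm : ∀ k ∈ K, -k ∈ K₀ := fun k hk =>
    ⟨0, hz1, -k, ⟨(1, -k), ⟨⟨zero_le_one, le_rfl⟩, by simpa using hk⟩, by simp⟩, by simp⟩
  set K₁ : Set X := φ '' K₀ with hK₁
  have hK₁c : IsCompact (toWeakSpace ℝ X '' K₁) := by
    have e : toWeakSpace ℝ X '' K₁ = (WeakSpace.map φ) '' (toWeakSpace ℝ X '' K₀) := by
      rw [hK₁, Set.image_image, Set.image_image]
      rfl
    rw [e]
    exact hK₀c.image (WeakSpace.map φ).continuous
  have hK₁x : Convex ℝ K₁ := hK₀x.linear_image φ.toLinearMap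
  have hK₁0 : ∀ κ ∈ K₁, f₀ κ = 0 := by
    rintro _ ⟨k, _, rfl⟩
    exact hφ0 k
  have h0K : (0 : X) ∈ K₁ := ⟨0, hz, map_zero φ⟩
  -- bound of `f₀` on `C`
  obtain ⟨S, hS⟩ : ∃ S : ℝ, ∀ c ∈ C, f₀ c - t ≤ S := by
    obtain ⟨M, hM⟩ := hCb.exists_norm_le
    refine ⟨‖f₀‖ * M - t, fun c hc => ?_⟩
    have h1 := f₀.le_opNorm c
    rw [Real.norm_eq_abs] at h1
    have h2 : ‖f₀‖ * ‖c‖ ≤ ‖f₀‖ * M := mul_le_mul_of_nonneg_left (hM c hc) (norm_nonneg _)
    linarith [le_abs_self (f₀ c)]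
  have hS0 : 0 < S := by linarith [hS x hxC]
  set T : Set X := cone S K₁ u with hT
  have hTc : IsCompact (toWeakSpace ℝ X '' T) := weakCompact_cone u hK₁c
  have hTx : Convex ℝ T := convex_cone u hK₁x
  have h0T : (0 : X) ∈ T := ⟨(0, 0), ⟨⟨le_rfl, hS0.le⟩, h0K⟩, by simp⟩
  set D : Set X := (C + T) ∩ {y : X | t ≤ f₀ y} with hD
  have hDc : IsClosed D := by
    refine IsClosed.inter (closed_add_weakCompact hCc hCx hTc) ?_
    exact isClosed_le continuous_const f₀.continuous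
  have hDx : Convex ℝ D := by
    refine (hCx.add hTx).inter ?_
    intro a ha b hb p q hp hq hpq
    simp only [Set.mem_ofPred_eq] at ha hb ⊢
    simp only [map_add, map_smul, smul_eq_mul]
    have e1 : p * t ≤ p * f₀ a := mul_le_mul_of_nonneg_left ha hp
    have e2 : q * t ≤ q * f₀ b := mul_le_mul_of_nonneg_left hb hq
    have e3 : p * t + q * t = t := by rw [← add_mul, hpq, one_mul]
    linarith
  have hDb : Bornology.IsBounded D := (hCb.add (weakCompact_bounded hTc)).subset Set.inter_subset_left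
  have hCD : ∀ y ∈ C, t ≤ f₀ y → y ∈ D := fun y hy hyt =>
    ⟨⟨y, hy, 0, h0T, by simp⟩, hyt⟩
  -- an exposed point of `D` strictly above level `t`
  obtain ⟨e, ⟨heD, l, hl⟩, het⟩ : ∃ e ∈ Set.exposedPoints ℝ D, t < f₀ e := by
    by_contra hcon
    push Not at hcon
    have hxD : x ∈ D := hCD x hxC hxt.le
    rw [H D hDc hDx hDb] at hxD
    have hle : closure (convexHull ℝ (Set.exposedPoints ℝ D)) ⊆ {y : X | f₀ y ≤ t} := by
      refine closure_minimal (convexHull_min (fun y hy => hcon y hy) ?_) ?_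
      · intro a ha b hb p q hp hq hpq
        simp only [Set.mem_ofPred_eq] at ha hb ⊢
        simp only [map_add, map_smul, smul_eq_mul]
        have e1 : p * f₀ a ≤ p * t := mul_le_mul_of_nonneg_left ha hp
        have e2 : q * f₀ b ≤ q * t := mul_le_mul_of_nonneg_left hb hq
        have e3 : p * t + q * t = t := by rw [← add_mul, hpq, one_mul]
        linarith
      · exact isClosed_le f₀.continuous continuous_const
    exact absurd (hle hxD) (not_le.mpr hxt)
  obtain ⟨⟨c, hcC, _, ⟨⟨s, κ⟩, ⟨⟨hs0, hsS⟩, hκ⟩, rfl⟩, hce⟩, het'⟩ := heD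
  simp only at hs0 hsS hκ hce
  have hfv : ∀ κ ∈ K₁, f₀ (κ - u) = -1 := by
    intro κ hκ
    simp [hK₁0 κ hκ, hu]
  -- the cone part of `e` vanishes
  have hs : s = 0 := by
    by_contra hne
    have hspos : 0 < s := lt_of_le_of_ne hs0 (Ne.symm hne)
    have hfe : f₀ e = f₀ c - s := by
      rw [← hce]
      simp only [map_add, map_smul, smul_eq_mul, hfv κ hκ]
      ring
    obtain ⟨η, hη0, hηs, hηt⟩ : ∃ η : ℝ, 0 < η ∧ η ≤ s ∧ η ≤ f₀ e - t :=
      ⟨min s (f₀ e - t), lt_min hspos (by linarith), min_le_left _ _, min_le_right _ _⟩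
    have hp : e + η • (κ - u) ∈ D := by
      refine ⟨⟨c, hcC, (s + η) • (κ - u), ⟨(s + η, κ), ⟨⟨by linarith, ?_⟩, hκ⟩, rfl⟩, ?_⟩, ?_⟩
      · have := hS c hcC
        linarith
      · change c + (s + η) • (κ - u) = e + η • (κ - u)
        rw [← hce, add_smul, add_assoc]
      · simp only [Set.mem_ofPred_eq, map_add, map_smul, smul_eq_mul, hfv κ hκ]
        linarith
    have hm : e - η • (κ - u) ∈ D := by
      refine ⟨⟨c, hcC, (s - η) • (κ - u), ⟨(s - η, κ), ⟨⟨by linarith, by linarith⟩, hκ⟩, rfl⟩,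
        ?_⟩, ?_⟩
      · change c + (s - η) • (κ - u) = e - η • (κ - u)
        rw [← hce, sub_smul, add_sub_assoc]
      · simp only [Set.mem_ofPred_eq, map_sub, map_smul, smul_eq_mul]
        have := hfv κ hκ
        rw [map_sub] at this
        rw [this]
        linarith
    have hp1 := (hl _ hp).1
    have hm1 := (hl _ hm).1
    have hp2 : l e ≤ l (e + η • (κ - u)) := by
      rw [map_add]
      rw [map_sub] at hm1
      linarith
    have heq := (hl _ hp).2 hp2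
    have h0 : f₀ (e + η • (κ - u)) = f₀ e := by rw [heq]
    rw [map_add, map_smul, hfv κ hκ, smul_eq_mul] at h0
    linarith
  have heC : e ∈ C := by
    rw [hs, zero_smul, add_zero] at hce
    exact hce ▸ hcC
  -- `l` is small on `K₁`
  have hlu : ∀ κ ∈ K₁, l κ < l u := by
    intro κ hκ
    have hη0 : 0 < f₀ e - t := by linarith
    have hp : e + (f₀ e - t) • (κ - u) ∈ D := by
      refine ⟨⟨e, heC, (f₀ e - t) • (κ - u), ⟨(f₀ e - t, κ), ⟨⟨hη0.le, hS e heC⟩, hκ⟩, rfl⟩,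
        rfl⟩, ?_⟩
      simp only [Set.mem_ofPred_eq, map_add, map_smul, smul_eq_mul, hfv κ hκ]
      linarith
    by_contra hcon
    push Not at hcon
    have hp2 : l e ≤ l (e + (f₀ e - t) • (κ - u)) := by
      rw [map_add, map_smul, map_sub, smul_eq_mul]
      have := mul_nonneg hη0.le (sub_nonneg.mpr hcon)
      linarith
    have heq := (hl _ hp).2 hp2
    have h0 : f₀ (e + (f₀ e - t) • (κ - u)) = f₀ e := by rw [heq]
    rw [map_add, map_smul, hfv κ hκ, smul_eq_mul] at h0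
    linarith
  have hlu0 : 0 < l u := by
    have := hlu 0 h0K
    rwa [map_zero] at this
  -- `l` exposes `C` at `e`
  have hexp : ∀ y ∈ C, y ≠ e → l y < l e := by
    intro y hy hye
    have ha : 0 < f₀ e - t := by linarith
    obtain ⟨lam, hlam0, hlam1, hlamt⟩ :
        ∃ lam : ℝ, 0 < lam ∧ lam ≤ 1 ∧ lam * (f₀ e - f₀ y) ≤ f₀ e - t := by
      have hden : 0 < (f₀ e - t) + |f₀ e - f₀ y| := by positivity
      refine ⟨(f₀ e - t) / ((f₀ e - t) + |f₀ e - f₀ y|), div_pos ha hden, ?_, ?_⟩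
      · rw [div_le_one hden]
        linarith [abs_nonneg (f₀ e - f₀ y)]
      · rw [div_mul_eq_mul_div, div_le_iff₀ hden]
        have := le_abs_self (f₀ e - f₀ y)
        exact mul_le_mul_of_nonneg_left (by linarith) ha.le
    have hz : e + lam • (y - e) ∈ C := by
      have := hCx heC hy (sub_nonneg.mpr hlam1) hlam0.le (by ring)
      convert this using 1
      rw [smul_sub, sub_smul, one_smul]
      abel
    have hzD : e + lam • (y - e) ∈ D := by
      refine hCD _ hz ?_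
      rw [map_add, map_smul, map_sub, smul_eq_mul]
      linarith
    have hne : e + lam • (y - e) ≠ e := by
      intro h
      have h' : lam • (y - e) = 0 := by simpa using h
      rcases smul_eq_zero.mp h' with h1 | h1
      · exact hlam0.ne' h1
      · exact hye (sub_eq_zero.mp h1)
    have h1 := hl _ hzD
    have h2 : l (e + lam • (y - e)) < l e := lt_of_le_of_ne h1.1 (fun h => hne (h1.2 h.ge))
    rw [map_add, map_smul, map_sub, smul_eq_mul] at h2
    have h3 : lam * (l y - l e) < 0 := by linarith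
    have h4 : l y - l e < 0 := by
      by_contra hcon
      push Not at hcon
      have := mul_nonneg hlam0.le hcon
      linarith
    linarith
  refine ⟨e, heC, (l u)⁻¹ • l, ?_, het, ?_⟩
  · intro y hy hye
    simpa using mul_lt_mul_of_pos_left (hexp y hy hye) (inv_pos.mpr hlu0)
  · intro k hk
    have h1 : l (φ k) < l u := hlu _ ⟨k, hpos k hk, rfl⟩
    have h2 : l (φ (-k)) < l u := hlu _ ⟨-k, hnegm k hk, rfl⟩
    rw [map_neg, map_neg] at h2
    have h3 : l (φ k) = ε⁻¹ * (l k - f₀ k * l u) := by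
      rw [hφa]
      simp
    rw [h3] at h1 h2
    have h4 : |l k - f₀ k * l u| < ε * l u := by
      rw [abs_lt]
      constructor
      · have := mul_lt_mul_of_pos_left h2 hε
        have e1 : ε * -(ε⁻¹ * (l k - f₀ k * l u)) = -(l k - f₀ k * l u) := by
          field_simp
        rw [e1] at this
        linarith
      · have := mul_lt_mul_of_pos_left h1 hε
        have e1 : ε * (ε⁻¹ * (l k - f₀ k * l u)) = (l k - f₀ k * l u) := by
          field_simp
        rw [e1] at this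
        exact this
    have h5 : ((l u)⁻¹ • l) k - f₀ k = (l u)⁻¹ * (l k - f₀ k * l u) := by
      simp only [_root_.smul_apply, smul_eq_mul]
      field_simp
    rw [h5, abs_mul, abs_of_pos (inv_pos.mpr hlu0)]
    calc (l u)⁻¹ * |l k - f₀ k * l u| < (l u)⁻¹ * (ε * l u) :=
          mul_lt_mul_of_pos_left h4 (inv_pos.mpr hlu0)
      _ = ε := by field_simp

lemma forward [CompleteSpace X]
    (H : ∀ C : Set X, IsClosed C → Convex ℝ C → Bornology.IsBounded C →
      C = closure (convexHull ℝ (Set.exposedPoints ℝ C)))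
    (C : Set X) (hCc : IsClosed C) (hCx : Convex ℝ C) (hCb : Bornology.IsBounded C)
    (f₀ : X →L[ℝ] ℝ) (K : Set X) (hKx : Convex ℝ K)
    (hK : IsCompact (toWeakSpace ℝ X '' K)) (ε : ℝ) (hε : 0 < ε) (t : ℝ)
    (hx : ∃ x ∈ C, t < f₀ x) :
    ∃ e ∈ C, ∃ f : X →L[ℝ] ℝ, (∀ y ∈ C, y ≠ e → f y < f e) ∧ t < f₀ e ∧
      ∀ k ∈ K, |f k - f₀ k| < ε := by
  rcases K.eq_empty_or_nonempty with rfl | hKne
  · obtain ⟨e, he, f, hf, ht, -⟩ := forward_core H C hCc hCx hCb f₀ {0}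
      (Set.singleton_nonempty 0) (convex_singleton 0) (by simp) ε hε t hx
    exact ⟨e, he, f, hf, ht, fun k hk => absurd hk (Set.notMem_empty k)⟩
  · exact forward_core H C hCc hCx hCb f₀ K hKne hKx hK ε hε t hx

lemma weakCompact_prod {K : Set X} (hK : IsCompact (toWeakSpace ℝ X '' K)) :
    IsCompact (toWeakSpace ℝ (X × ℝ) '' (K ×ˢ Set.Icc (0 : ℝ) 1)) := by
  have h : toWeakSpace ℝ (X × ℝ) '' (K ×ˢ Set.Icc (0 : ℝ) 1)
      = (fun q : WeakSpace ℝ X × ℝ => WeakSpace.map (ContinuousLinearMap.inl ℝ X ℝ) q.1 +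
        toWeakSpaceCLM ℝ (X × ℝ) (ContinuousLinearMap.inr ℝ X ℝ q.2)) ''
        ((toWeakSpace ℝ X '' K) ×ˢ Set.Icc (0 : ℝ) 1) := by
    have key : ∀ (k : X) (r : ℝ), WeakSpace.map (ContinuousLinearMap.inl ℝ X ℝ)
        (toWeakSpace ℝ X k) + toWeakSpaceCLM ℝ (X × ℝ) (ContinuousLinearMap.inr ℝ X ℝ r)
        = toWeakSpace ℝ (X × ℝ) (k, r) := by
      intro k r
      have h1 : WeakSpace.map (ContinuousLinearMap.inl ℝ X ℝ) (toWeakSpace ℝ X k)
          = toWeakSpace ℝ (X × ℝ) (k, 0) := rfl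
      rw [h1, toWeakSpaceCLM_eq_toWeakSpace, ← map_add]
      simp
    ext w
    constructor
    · rintro ⟨⟨k, r⟩, ⟨hk, hr⟩, rfl⟩
      exact ⟨(toWeakSpace ℝ X k, r), ⟨⟨k, hk, rfl⟩, hr⟩, key k r⟩
    · rintro ⟨⟨_, r⟩, ⟨⟨k, hk, rfl⟩, hr⟩, rfl⟩
      exact ⟨(k, r), ⟨hk, hr⟩, (key k r).symm⟩
  rw [h]
  refine (hK.prod isCompact_Icc).image ?_
  refine ((WeakSpace.map (ContinuousLinearMap.inl ℝ X ℝ)).continuous.comp continuous_fst).add ?_
  exact (toWeakSpaceCLM ℝ (X × ℝ)).continuous.comp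
    ((ContinuousLinearMap.inr ℝ X ℝ).continuous.comp continuous_snd)

lemma principle_core [CompleteSpace X]
    (H : ∀ C : Set (X × ℝ), IsClosed C → Convex ℝ C → Bornology.IsBounded C →
      C = closure (convexHull ℝ (Set.exposedPoints ℝ C)))
    (B : Set X) (hBc : IsClosed B) (hBb : Bornology.IsBounded B)
    (φ : X → ℝ) (hφ : ConvexOn ℝ B φ) (hφl : LowerSemicontinuousOn φ B)
    (hφb : BddBelow (φ '' B)) (K : Set X) (hKne : K.Nonempty) (hKx : Convex ℝ K)
    (hK : IsCompact (toWeakSpace ℝ X '' K)) (ε : ℝ) (hε : 0 < ε) (t : ℝ)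
    (hx : ∃ x ∈ B, φ x < t) :
    ∃ b ∈ B, φ b < t ∧ ∃ l : X →L[ℝ] ℝ, (∀ k ∈ K, |l k| < ε) ∧
      ∀ y ∈ B, y ≠ b → φ b + l b < φ y + l y := by
  obtain ⟨x, hxB, hxt⟩ := hx
  obtain ⟨m, hm⟩ := hφb
  set D : Set (X × ℝ) := {p | p.1 ∈ B ∧ φ p.1 ≤ p.2} ∩ {p | p.2 ≤ t} with hD
  have hDc : IsClosed D := by
    refine IsClosed.inter ?_ (isClosed_le continuous_snd continuous_const)
    exact (lowerSemicontinuousOn_iff_isClosed_epigraph hBc).mp hφl
  have hDx : Convex ℝ D := by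
    refine hφ.convex_epigraph.inter ?_
    intro p hp q hq a b ha hb hab
    simp only [Set.mem_ofPred_eq] at hp hq ⊢
    simp only [Prod.snd_add, Prod.smul_snd, smul_eq_mul]
    have e1 : a * p.2 ≤ a * t := mul_le_mul_of_nonneg_left hp ha
    have e2 : b * q.2 ≤ b * t := mul_le_mul_of_nonneg_left hq hb
    have e3 : a * t + b * t = t := by rw [← add_mul, hab, one_mul]
    linarith
  have hDb : Bornology.IsBounded D := by
    refine (hBb.prod (Metric.isBounded_Icc m t)).subset ?_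
    rintro ⟨y, s⟩ ⟨⟨hy, hs⟩, hst⟩
    exact ⟨hy, ⟨(hm ⟨y, hy, rfl⟩).trans hs, hst⟩⟩
  obtain ⟨δ, hδ0, hδε, hδ4⟩ : ∃ δ : ℝ, 0 < δ ∧ 2 * δ ≤ ε ∧ 4 * δ ≤ 1 :=
    ⟨min (ε / 2) (1 / 4), lt_min (by linarith) (by norm_num),
      by linarith [min_le_left (ε / 2) (1 / 4 : ℝ)],
      by linarith [min_le_right (ε / 2) (1 / 4 : ℝ)]⟩
  obtain ⟨⟨b, s⟩, heD, f, hf, het, hfK⟩ := forward H D hDc hDx hDb
    (-(ContinuousLinearMap.snd ℝ X ℝ)) (K ×ˢ Set.Icc (0 : ℝ) 1) (hKx.prod (convex_Icc 0 1))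
    (weakCompact_prod hK) δ hδ0 (-t) ⟨(x, φ x), ⟨⟨hxB, le_rfl⟩, hxt.le⟩, by simpa using hxt⟩
  obtain ⟨⟨hbB, hbs⟩, hst⟩ := heD
  simp only at hbB hbs hst
  have hst' : s < t := by simpa using het
  set l₀ : X →L[ℝ] ℝ := f.comp (ContinuousLinearMap.inl ℝ X ℝ) with hl₀
  set ρ : ℝ := f (0, 1) with hρ
  have hfv : ∀ (y : X) (r : ℝ), f (y, r) = l₀ y + r * ρ := by
    intro y r
    have h1 : ((y, r) : X × ℝ) = (y, 0) + r • (0, 1) := by simp
    rw [h1, map_add, map_smul, smul_eq_mul]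
    rfl
  have hk0 : ∀ k ∈ K, |l₀ k| < δ := by
    intro k hk
    have := hfK (k, 0) ⟨hk, ⟨le_rfl, zero_le_one⟩⟩
    rw [hfv] at this
    simpa using this
  have hρ1 : ρ < -(1 / 2) := by
    obtain ⟨k, hk⟩ := hKne
    have h1 := hfK (k, 1) ⟨hk, ⟨zero_le_one, le_rfl⟩⟩
    rw [hfv] at h1
    have h1' : |l₀ k + 1 * ρ - -1| < δ := by simpa using h1
    have h2 := abs_lt.mp h1'
    have h3 := abs_lt.mp (hk0 k hk)
    linarith [h2.2, h3.1]
  have hρ0 : ρ < 0 := by linarith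
  have hsb : s = φ b := by
    by_contra hne
    have hlt : φ b < s := lt_of_le_of_ne hbs (Ne.symm hne)
    have h1 := hf (b, φ b) ⟨⟨hbB, le_rfl⟩, by simp only [Set.mem_ofPred_eq]; linarith⟩
      (fun h => hne (congrArg Prod.snd h).symm)
    rw [hfv, hfv] at h1
    have := mul_pos (sub_pos.mpr hlt) (neg_pos.mpr hρ0)
    linarith
  subst hsb
  have main : ∀ y ∈ B, y ≠ b → l₀ y + φ y * ρ < l₀ b + φ b * ρ := by
    intro y hy hyb
    have ha : 0 < t - φ b := by linarith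
    obtain ⟨lam, hlam0, hlam1, hlamt⟩ :
        ∃ lam : ℝ, 0 < lam ∧ lam ≤ 1 ∧ lam * (φ y - φ b) ≤ t - φ b := by
      have hden : 0 < (t - φ b) + |φ y - φ b| := by positivity
      refine ⟨(t - φ b) / ((t - φ b) + |φ y - φ b|), div_pos ha hden, ?_, ?_⟩
      · rw [div_le_one hden]
        linarith [abs_nonneg (φ y - φ b)]
      · rw [div_mul_eq_mul_div, div_le_iff₀ hden]
        have := le_abs_self (φ y - φ b)
        exact mul_le_mul_of_nonneg_left (by linarith) ha.le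
    have hz := hφ.1 hbB hy (sub_nonneg.mpr hlam1) hlam0.le (by ring)
    have hφz := hφ.2 hbB hy (sub_nonneg.mpr hlam1) hlam0.le (by ring)
    simp only [smul_eq_mul] at hφz
    have hne : (1 - lam) • b + lam • y ≠ b := by
      intro h
      have h' : lam • (y - b) = 0 := by
        have : (1 - lam) • b + lam • y - b = 0 := by rw [h, sub_self]
        rw [← this, smul_sub, sub_smul, one_smul]
        abel
      rcases smul_eq_zero.mp h' with h1 | h1
      · exact hlam0.ne' h1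
      · exact hyb (sub_eq_zero.mp h1)
    have h1 := hf ((1 - lam) • b + lam • y, (1 - lam) * φ b + lam * φ y)
      ⟨⟨hz, hφz⟩, by simp only [Set.mem_ofPred_eq]; linarith⟩
      (fun h => hne (congrArg Prod.fst h))
    rw [hfv, hfv, map_add, map_smul, map_smul, smul_eq_mul, smul_eq_mul] at h1
    have h3 : lam * ((l₀ y + φ y * ρ) - (l₀ b + φ b * ρ)) < 0 := by linarith
    by_contra hcon
    push Not at hcon
    have := mul_nonneg hlam0.le (sub_nonneg.mpr hcon)
    linarith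
  refine ⟨b, hbB, hst', ρ⁻¹ • l₀, ?_, ?_⟩
  · intro k hk
    have h1 := hk0 k hk
    have h2 : (ρ⁻¹ • l₀) k = ρ⁻¹ * l₀ k := rfl
    rw [h2, abs_mul, abs_inv, abs_of_neg hρ0, inv_mul_lt_iff₀ (by linarith)]
    have h3 : 1 / 2 * ε < -ρ * ε := mul_lt_mul_of_pos_right (by linarith) hε
    linarith
  · intro y hy hyb
    have h1 := main y hy hyb
    have h2 : ∀ z, (ρ⁻¹ • l₀) z = ρ⁻¹ * l₀ z := fun z => rfl
    rw [h2, h2]
    have h3 : ρ⁻¹ < 0 := inv_lt_zero.mpr hρ0
    have h4 := mul_lt_mul_of_neg_left h1 h3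
    have e1 : ρ⁻¹ * (l₀ y + φ y * ρ) = φ y + ρ⁻¹ * l₀ y := by
      rw [mul_add, mul_comm (φ y) ρ, inv_mul_cancel_left₀ hρ0.ne, add_comm]
    have e2 : ρ⁻¹ * (l₀ b + φ b * ρ) = φ b + ρ⁻¹ * l₀ b := by
      rw [mul_add, mul_comm (φ b) ρ, inv_mul_cancel_left₀ hρ0.ne, add_comm]
    rw [e1, e2] at h4
    exact h4

lemma principle_backward
    (V : ∀ B : Set X, IsClosed B → Bornology.IsBounded B → ∀ φ : X → ℝ, ConvexOn ℝ B φ →
      LowerSemicontinuousOn φ B → BddBelow (φ '' B) → ∀ K : Set X, Convex ℝ K →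
      IsCompact (toWeakSpace ℝ X '' K) → ∀ ε : ℝ, 0 < ε → ∀ t : ℝ, (∃ x ∈ B, φ x < t) →
        ∃ b ∈ B, φ b < t ∧ ∃ l : X →L[ℝ] ℝ, (∀ k ∈ K, |l k| < ε) ∧
          ∀ y ∈ B, y ≠ b → φ b + l b < φ y + l y)
    (C : Set (X × ℝ)) (hCc : IsClosed C) (hCx : Convex ℝ C) (hCb : Bornology.IsBounded C) :
    C = closure (convexHull ℝ (Set.exposedPoints ℝ C)) := by
  refine Set.Subset.antisymm ?_ (closure_minimal (convexHull_min exposedPoints_subset hCx) hCc)
  intro x₀ hx₀
  by_contra hcon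
  obtain ⟨f₀, t₀, hft, htx⟩ := geometric_hahn_banach_closed_point
    (convex_convexHull ℝ (Set.exposedPoints ℝ C)).closure isClosed_closure hcon
  obtain ⟨M, hM⟩ := hCb.exists_norm_le
  have hM0 : 0 ≤ M := (norm_nonneg x₀).trans (hM x₀ hx₀)
  have hsnd : ∀ p ∈ C, |p.2| ≤ M := fun p hp => by
    rw [← Real.norm_eq_abs]
    exact (norm_snd_le p).trans (hM p hp)
  -- perturb to make the last coordinate nonzero
  obtain ⟨f₁, t₁, hr, hexp, htx₁⟩ : ∃ (f₁ : (X × ℝ) →L[ℝ] ℝ) (t₁ : ℝ), f₁ (0, 1) ≠ 0 ∧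
      (∀ e ∈ Set.exposedPoints ℝ C, f₁ e < t₁) ∧ t₁ < f₁ x₀ := by
    have hexp0 : ∀ e ∈ Set.exposedPoints ℝ C, f₀ e < t₀ := fun e he =>
      hft e (subset_closure (subset_convexHull ℝ _ he))
    by_cases hz : f₀ (0, 1) = 0
    · have hgap : 0 < f₀ x₀ - t₀ := by linarith
      set η : ℝ := (f₀ x₀ - t₀) / (2 * M + 2) with hη
      have hη0 : 0 < η := div_pos hgap (by linarith)
      have hηM : η * (2 * M + 2) = f₀ x₀ - t₀ := by
        rw [hη]
        field_simp
      refine ⟨f₀ + η • ContinuousLinearMap.snd ℝ X ℝ, t₀ + η * M, ?_, ?_, ?_⟩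
      · have : (f₀ + η • ContinuousLinearMap.snd ℝ X ℝ) (0, 1) = f₀ (0, 1) + η * 1 := rfl
        rw [this, hz]
        linarith
      · intro e he
        have : (f₀ + η • ContinuousLinearMap.snd ℝ X ℝ) e = f₀ e + η * e.2 := rfl
        rw [this]
        have h1 := hexp0 e he
        have h2 := mul_le_mul_of_nonneg_left ((le_abs_self _).trans (hsnd e he.1)) hη0.le
        linarith
      · have : (f₀ + η • ContinuousLinearMap.snd ℝ X ℝ) x₀ = f₀ x₀ + η * x₀.2 := rfl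
        rw [this]
        have h2 := mul_le_mul_of_nonneg_left
          ((neg_le_neg (hsnd x₀ hx₀)).trans (neg_abs_le x₀.2)) hη0.le
        linarith
    · exact ⟨f₀, t₀, hz, hexp0, htx⟩
  set B : Set X := Prod.fst '' C with hB
  have hsub : ∀ u : ℕ → X × ℝ, (∀ n, u n ∈ C) → ∀ x : X,
      Filter.Tendsto (fun n => (u n).1) Filter.atTop (nhds x) →
      ∃ s : ℝ, (x, s) ∈ C ∧ ∃ ψ : ℕ → ℕ, StrictMono ψ ∧
        Filter.Tendsto (fun n => (u (ψ n)).2) Filter.atTop (nhds s) := by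
    intro u hu x hux
    obtain ⟨s, -, ψ, hψ, hs⟩ := (isCompact_Icc (a := -M) (b := M)).tendsto_subseq
      (x := fun n => (u n).2) (fun n => abs_le.mp (hsnd _ (hu n)))
    refine ⟨s, ?_, ψ, hψ, hs⟩
    exact hCc.mem_of_tendsto ((hux.comp hψ.tendsto_atTop).prodMk_nhds hs)
      (Filter.Eventually.of_forall fun n => hu (ψ n))
  have hmin : ∀ y ∈ B, ∃ s : ℝ, (y, s) ∈ C ∧ ∀ s', (y, s') ∈ C → -f₁ (y, s) ≤ -f₁ (y, s') := by
    rintro y ⟨⟨y', s₀⟩, hy, rfl⟩
    have hc : IsCompact {s : ℝ | (y', s) ∈ C} := by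
      refine (isCompact_Icc (a := -M) (b := M)).of_isClosed_subset ?_ ?_
      · exact hCc.preimage (by fun_prop : Continuous fun s : ℝ => (y', s))
      · intro s hs
        exact abs_le.mp (hsnd _ hs)
    obtain ⟨s, hs, hsm⟩ := hc.exists_isMinOn ⟨s₀, hy⟩
      (f := fun s : ℝ => -f₁ (y', s)) (by fun_prop : Continuous fun s : ℝ => -f₁ (y', s)).continuousOn
    exact ⟨s, hs, fun s' hs' => hsm hs'⟩
  choose! σ hσC hσm using hmin
  have hBx : Convex ℝ B := hCx.linear_image (LinearMap.fst ℝ X ℝ)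
  have hBc : IsClosed B := by
    refine IsSeqClosed.isClosed ?_
    intro u x hu hux
    choose v hv using hu
    obtain ⟨s, hs, -⟩ := hsub v (fun n => (hv n).1) x (by simpa only [(hv _).2] using hux)
    exact ⟨(x, s), hs, rfl⟩
  have hBb : Bornology.IsBounded B := by
    refine isBounded_iff_forall_norm_le.mpr ⟨M, ?_⟩
    rintro _ ⟨p, hp, rfl⟩
    exact (norm_fst_le p).trans (hM p hp)
  set φ : X → ℝ := fun y => -f₁ (y, σ y) with hφ
  have hφle : ∀ p ∈ C, φ p.1 ≤ -f₁ p := fun p hp => hσm p.1 ⟨p, hp, rfl⟩ p.2 hp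
  have hφx : ConvexOn ℝ B φ := by
    refine ⟨hBx, fun y hy z hz a b ha hb hab => ?_⟩
    have h1 := hCx (hσC y hy) (hσC z hz) ha hb hab
    have h2 := hφle _ h1
    have h3 : φ (a • y + b • z) ≤ -f₁ (a • (y, σ y) + b • (z, σ z)) := h2
    rw [map_add, map_smul, map_smul] at h3
    simp only [smul_eq_mul] at h3 ⊢
    simp only [hφ] at h3 ⊢
    linarith
  have hφl : LowerSemicontinuousOn φ B := by
    rw [lowerSemicontinuousOn_iff_isClosed_epigraph hBc]
    refine IsSeqClosed.isClosed ?_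
    intro u p hu hup
    have hu1 : Filter.Tendsto (fun n => (u n).1) Filter.atTop (nhds p.1) :=
      (continuous_fst.tendsto p).comp hup
    have hu2 : Filter.Tendsto (fun n => (u n).2) Filter.atTop (nhds p.2) :=
      (continuous_snd.tendsto p).comp hup
    obtain ⟨s, hs, ψ, hψ, hlim⟩ := hsub (fun n => ((u n).1, σ (u n).1))
      (fun n => hσC _ (hu n).1) p.1 hu1
    refine ⟨⟨(p.1, s), hs, rfl⟩, ?_⟩
    have h1 : Filter.Tendsto (fun n => -f₁ ((u (ψ n)).1, σ (u (ψ n)).1)) Filter.atTop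
        (nhds (-f₁ (p.1, s))) :=
      ((f₁.continuous.neg).tendsto (p.1, s)).comp
        ((hu1.comp hψ.tendsto_atTop).prodMk_nhds hlim)
    have h2 : -f₁ (p.1, s) ≤ p.2 :=
      le_of_tendsto_of_tendsto' h1 (hu2.comp hψ.tendsto_atTop) (fun n => (hu (ψ n)).2)
    exact (hφle (p.1, s) hs).trans h2
  have hφb : BddBelow (φ '' B) := by
    refine ⟨-(‖f₁‖ * M), ?_⟩
    rintro _ ⟨y, hy, rfl⟩
    have h1 := f₁.le_opNorm (y, σ y)
    rw [Real.norm_eq_abs] at h1
    have h2 := mul_le_mul_of_nonneg_left (hM _ (hσC y hy)) (norm_nonneg f₁)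
    have h3 := le_abs_self (f₁ (y, σ y))
    simp only [hφ]
    linarith
  obtain ⟨b, hbB, hbt, l, -, hl⟩ := V B hBc hBb φ hφx hφl hφb ∅ convex_empty (by simp) 1 one_pos
    (-t₁) ⟨x₀.1, ⟨x₀, hx₀, rfl⟩, by linarith [hφle x₀ hx₀]⟩
  have hmem : (b, σ b) ∈ Set.exposedPoints ℝ C := by
    refine ⟨hσC b hbB, f₁ - l.comp (ContinuousLinearMap.fst ℝ X ℝ), ?_⟩
    rintro ⟨y, s⟩ hys
    have e1 : (f₁ - l.comp (ContinuousLinearMap.fst ℝ X ℝ)) (y, s) = f₁ (y, s) - l y := rfl
    have e2 : (f₁ - l.comp (ContinuousLinearMap.fst ℝ X ℝ)) (b, σ b) = f₁ (b, σ b) - l b := rfl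
    rw [e1, e2]
    have h1 : φ y ≤ -f₁ (y, s) := hφle (y, s) hys
    have h0 : φ b = -f₁ (b, σ b) := rfl
    by_cases hyb : y = b
    · subst hyb
      refine ⟨by linarith, fun h => ?_⟩
      have h2 : f₁ (y, s) = f₁ (y, σ y) := by linarith
      have h3 : f₁ (y, s) - f₁ (y, σ y) = (s - σ y) * f₁ (0, 1) := by
        rw [← map_sub]
        have h4 : ((y, s) : X × ℝ) - (y, σ y) = (s - σ y) • (0, 1) := by simp
        rw [h4, map_smul, smul_eq_mul]
      have h5 : (s - σ y) * f₁ (0, 1) = 0 := by rw [← h3, h2, sub_self]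
      rcases mul_eq_zero.mp h5 with h6 | h6
      · rw [sub_eq_zero.mp h6]
      · exact absurd h6 hr
    · have h2 := hl y ⟨(y, s), hys, rfl⟩ hyb
      exact ⟨by linarith, fun h => absurd h (by linarith)⟩
  have h1 := hexp _ hmem
  have h0 : φ b = -f₁ (b, σ b) := rfl
  linarith

/-- `X × ℝ` has the exposed-hull property if and only if the linear variational principle with
strict minima holds for lower semicontinuous convex functions bounded below on closed convex
bounded subsets of `X`, with perturbations small on a given weakly compact convex set. -/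
theorem result (X : Type u) [NormedAddCommGroup X] [NormedSpace ℝ X] [CompleteSpace X] :
    (∀ C : Set (X × ℝ), IsClosed C → Convex ℝ C → Bornology.IsBounded C →
      C = closure (convexHull ℝ (Set.exposedPoints ℝ C))) ↔
    (∀ B : Set X, IsClosed B → Bornology.IsBounded B → ∀ φ : X → ℝ, ConvexOn ℝ B φ →
      LowerSemicontinuousOn φ B → BddBelow (φ '' B) → ∀ K : Set X, Convex ℝ K →
      IsCompact (toWeakSpace ℝ X '' K) → ∀ ε : ℝ, 0 < ε → ∀ t : ℝ, (∃ x ∈ B, φ x < t) →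
        ∃ b ∈ B, φ b < t ∧ ∃ l : X →L[ℝ] ℝ, (∀ k ∈ K, |l k| < ε) ∧
          ∀ y ∈ B, y ≠ b → φ b + l b < φ y + l y) := by
  constructor
  · intro H B hBc hBb φ hφ hφl hφb K hKx hK ε hε t hx
    rcases K.eq_empty_or_nonempty with rfl | hKne
    · obtain ⟨b, hb, hbt, l, -, hl⟩ := principle_core H B hBc hBb φ hφ hφl hφb {0}
        (Set.singleton_nonempty 0) (convex_singleton 0) (by simp) ε hε t hx
      exact ⟨b, hb, hbt, l, fun k hk => absurd hk (Set.notMem_empty k), hl⟩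
    · exact principle_core H B hBc hBb φ hφ hφl hφb K hKne hKx hK ε hε t hx
  · intro V C hCc hCx hCb
    exact principle_backward V C hCc hCx hCb

end Pool.Agent.Results.MP_daffe5_an.LinearPrinciple
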